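import Pool.Agent.U324.MTI.Main

/-!
# The multivariate trace inequality for positive operators, with a universal constant

For all `n`, all `d` and all positive semidefinite `d × d` matrices `A_1, …, A_n`,
`Tr √(∑ A_j²) - ∑ Tr A_j ≥ 252 ∑_{j<k} (‖A_j - A_k‖₁ - Tr (A_j + A_k))`.

Idea of the proof. Let `P_k^i` be the spectral projection of `A_i` for the eigenvalues above
`T / 2^k` and `B_k = ∑_{i≠j} Tr P_k^i P_k^j`. Since `∑_k (T/2^(k+1)) P_k^i ≤ A_i`, one has
`∑_k (T/2^(k+1)) B_k ≤ ∑_{i≠j} (Tr (A_i + A_j) - ‖A_i - A_j‖₁)`. Let `F_k` be the projection on the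
span of the ranges of `P_k^1, …, P_k^n`. On the range of `F_k - F_{k-1}` one uses the square root
measurement of the compressions of `P_k^i - P_{k-1}^i`. The Gram matrix estimate
`Tr (∑ P^i - F)² ≤ ∑_{i≠j} Tr P^i P^j` shows that the error of this measurement, summed over `i`, is
at most `63/2 B_k`, with a constant which depends neither on `n` nor on `k`; hence there is a
measurement `E_1, …, E_n` with
`∑ Tr A_i (1 - E_i) ≤ 126 ∑_{i≠j} (Tr (A_i + A_j) - ‖A_i - A_j‖₁)`
(`Pool.Agent.U324.MTI.exists_measurement`), while `∑ Tr A_i E_i ≤ Tr √(∑ A_i²)`.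
-/

set_option autoImplicit false

open Matrix Finset
open scoped ComplexOrder MatrixOrder

namespace Pool.Agent.Results.MP_ebd556_mp.TraceInequality

/-- The trace norm `‖X‖₁ = Tr √(X* X)`. -/
noncomputable def traceNorm {d : ℕ} (X : Matrix (Fin d) (Fin d) ℂ) : ℝ :=
  (CFC.sqrt (Xᴴ * X)).trace.re

/-- `L(A_1, …, A_n) = Tr √(∑ A_j²) - ∑ Tr A_j`. -/
noncomputable def L {d n : ℕ} (A : Fin n → Matrix (Fin d) (Fin d) ℂ) : ℝ :=
  (CFC.sqrt (∑ j, A j ^ 2)).trace.re - ∑ j, (A j).trace.re

/-- `R(A_1, …, A_n) = ∑_{j<k} (‖A_j - A_k‖₁ - Tr (A_j + A_k))`. -/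
noncomputable def R {d n : ℕ} (A : Fin n → Matrix (Fin d) (Fin d) ℂ) : ℝ :=
  ∑ j, ∑ k, if j < k then traceNorm (A j - A k) - (A j + A k).trace.re else 0

/-- For all `n`, all `d` and all positive semidefinite `d × d` matrices `A_1, …, A_n` one has
`L(A_1, …, A_n) ≥ 252 R(A_1, …, A_n)`. -/
theorem result : ∀ (n d : ℕ) (A : Fin n → Matrix (Fin d) (Fin d) ℂ),
    (∀ j, (A j).PosSemidef) → 252 * R A ≤ L A := by
  intro n d A hA
  have h := Pool.Agent.U324.MTI.main n A hA
  -- the sum over ordered pairs is twice the sum over `j < k`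
  set g : Fin n → Fin n → ℝ := fun j k => (A j + A k).trace.re - traceNorm (A j - A k) with hg
  have hsymm : ∀ j k, g j k = g k j := by
    intro j k
    simp only [hg]
    rw [add_comm (A j)]
    congr 1
    unfold traceNorm
    congr 3
    rw [← neg_sub (A k) (A j), conjTranspose_neg, neg_mul_neg]
  have hpairs : (∑ i, ∑ j, if i = j then 0 else g i j) = 2 * ∑ i, ∑ j, if i < j then g i j else 0 := by
    have e : ∀ i j : Fin n, (if i = j then 0 else g i j) =
        (if i < j then g i j else 0) + (if j < i then g j i else 0) := by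
      intro i j
      rcases lt_trichotomy i j with h | h | h
      · simp [h, h.ne, not_lt.2 h.le]
      · simp [h]
      · simp [h, h.ne', not_lt.2 h.le, hsymm i j]
    simp only [e, sum_add_distrib]
    rw [sum_comm (f := fun i j => if j < i then g j i else 0)]
    ring
  have hR : R A = - ∑ i, ∑ j, if i < j then g i j else 0 := by
    unfold R
    rw [← sum_neg_distrib]
    refine sum_congr rfl fun i _ => ?_
    rw [← sum_neg_distrib]
    refine sum_congr rfl fun j _ => ?_
    split_ifs <;> simp [hg]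
  have hL : L A = -(∑ j, Pool.Agent.U324.MTI.tr (A j) -
      Pool.Agent.U324.MTI.tr (CFC.sqrt (∑ j, A j * A j))) := by
    unfold L Pool.Agent.U324.MTI.tr
    simp only [pow_two]
    ring
  have hE : (∑ i, ∑ j, if i = j then 0 else
      (Pool.Agent.U324.MTI.tr (A i + A j) - Pool.Agent.U324.MTI.traceNorm (A i - A j))) =
      ∑ i, ∑ j, if i = j then 0 else g i j := rfl
  rw [hE, hpairs] at h
  rw [hL, hR]
  linarith

end Pool.Agent.Results.MP_ebd556_mp.TraceInequality
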